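import Mathlib

set_option autoImplicit false

namespace Pool.Agent.Results.MP_70625d_co.Counter

open Finset Metric

abbrev E := EuclideanSpace ℝ (Fin 2)

/-- A perfect matching of the labels, as a fixed-point-free involution. -/
def PM {n : ℕ} (σ : Fin n → Fin n) : Prop := ∀ i, σ i ≠ i ∧ σ (σ i) = i

def MaxSum {n : ℕ} (P : Fin n → E) (σ : Fin n → Fin n) : Prop :=
  PM σ ∧ ∀ τ, PM τ → ∑ i, dist (P i) (P (τ i)) ≤ ∑ i, dist (P i) (P (σ i))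

def B (x y : E) : Set E := closedBall (midpoint ℝ x y) (dist x y / 2)

lemma dsq (x y : E) : dist x y ^ 2 = (x 0 - y 0) ^ 2 + (x 1 - y 1) ^ 2 := by
  rw [EuclideanSpace.dist_sq_eq, Fin.sum_univ_two, Real.dist_eq, Real.dist_eq, sq_abs, sq_abs]

lemma dle (x y : E) (t : ℝ) (h0 : 0 ≤ t) (h : (x 0 - y 0) ^ 2 + (x 1 - y 1) ^ 2 ≤ t ^ 2) :
    dist x y ≤ t := by
  rw [← dsq] at h; exact (pow_le_pow_iff_left₀ dist_nonneg h0 two_ne_zero).mp h

lemma dge (x y : E) (t : ℝ) (h : t ^ 2 ≤ (x 0 - y 0) ^ 2 + (x 1 - y 1) ^ 2) :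
    t ≤ dist x y := by
  rw [← dsq] at h; exact (abs_le_of_sq_le_sq' h dist_nonneg).2

lemma memB (x y z : E) (h : z ∈ B x y) :
    (z 0 - x 0) * (z 0 - y 0) + (z 1 - x 1) * (z 1 - y 1) ≤ 0 := by
  have h1 : dist z (midpoint ℝ x y) ^ 2 ≤ (dist x y / 2) ^ 2 :=
    pow_le_pow_left₀ dist_nonneg h 2
  rw [div_pow, dsq, dsq] at h1
  simp only [midpoint_eq_smul_add, PiLp.smul_apply, PiLp.add_apply, smul_eq_mul,
    invOf_eq_inv] at h1
  nlinarith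

noncomputable def P (j : ℝ) : Fin 6 → E := ![!₂[1, 0], !₂[0, 0], !₂[-1, 0],
  !₂[1 - 4 * j, 4 - j ^ 2], !₂[0, j ^ 2 - 4], !₂[4 * j - 1, 4 - j ^ 2]]

noncomputable def Y (j e : ℝ) : Fin 6 → ℝ := ![1 + e, 1, 1 + e, j ^ 2 + 3 - e, j ^ 2 - 5, j ^ 2 + 3 - e]

def s : Fin 6 → Fin 6 := ![3, 4, 5, 0, 1, 2]

lemma pair (j e : ℝ) (hj : 10 ≤ j) (he : e * j = 1) (a b : Fin 6) (hab : a < b) :
    1 ≤ dist (P j a) (P j b) ∧ dist (P j a) (P j b) ≤ Y j e a + Y j e b ∧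
      (b = s a → Y j e a + Y j e b ≤ dist (P j a) (P j b)) := by
  have he0 : 0 < e := by by_contra h; nlinarith
  have he1 : e ≤ 1 / 10 := by nlinarith
  have h2 : 10 * j ≤ j ^ 2 := by nlinarith
  have h3 : e * j ^ 2 = j := by rw [sq, ← mul_assoc, he, one_mul]
  have h4 : 0 ≤ (j ^ 2 - 4) ^ 2 := sq_nonneg _
  refine ⟨dge _ _ _ ?_, dle _ _ _ ?_ ?_, fun h => dge _ _ _ ?_⟩
  · fin_cases a <;> fin_cases b <;> simp [P, -one_le_sq_iff_one_le_abs] at hab ⊢ <;> nlinarith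
  · fin_cases a <;> fin_cases b <;> simp [Y] at hab ⊢ <;> nlinarith
  · fin_cases a <;> fin_cases b <;> simp [P, Y, -one_le_sq_iff_one_le_abs] at hab ⊢ <;> nlinarith
  · fin_cases a <;> fin_cases b <;> simp [P, Y, s] at hab h ⊢ <;> nlinarith

theorem result (ε : ℝ) (hε : 0 < ε) : ∃ (n : ℕ) (Q : Fin n → E) (σ : Fin n → Fin n) (r : ℝ),
    Function.Injective Q ∧ IsLeast {t | ∃ a b, a ≠ b ∧ t = dist (Q a) (Q b)} r ∧ MaxSum Q σ ∧
    ∀ c : E, ¬ ball c (ε * r) ⊆ ⋂ i, B (Q i) (Q (σ i)) := by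
  obtain ⟨j, hj, hjε⟩ : ∃ j : ℝ, 10 ≤ j ∧ 10 ≤ ε * j :=
    ⟨10 + 10 / ε, by have : 0 < 10 / ε := by positivity
                     linarith, by rw [mul_add, mul_div_cancel₀ _ hε.ne']; linarith⟩
  have he : j⁻¹ * j = 1 := inv_mul_cancel₀ (by linarith)
  have key : ∀ a b, a ≠ b → 1 ≤ dist (P j a) (P j b) ∧ dist (P j a) (P j b) ≤ Y j j⁻¹ a + Y j j⁻¹ b ∧
      (b = s a → Y j j⁻¹ a + Y j j⁻¹ b ≤ dist (P j a) (P j b)) := by
    intro a b hab
    rcases lt_or_gt_of_ne hab with h | h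
    · exact pair j _ hj he a b h
    · obtain ⟨h1, h2, h3⟩ := pair j _ hj he b a h
      rw [dist_comm, add_comm]
      refine ⟨h1, h2, fun h4 => h3 ?_⟩
      rw [h4]; clear * -; revert a; decide
  have hs : PM s := by unfold PM; decide
  have hY : ∀ τ, PM τ → ∑ i, (Y j j⁻¹ i + Y j j⁻¹ (τ i)) = 2 * ∑ i, Y j j⁻¹ i := fun τ hτ => by
    rw [sum_add_distrib, two_mul]
    congr 1
    exact Equiv.sum_comp (Function.Involutive.toPerm τ fun i => (hτ i).2) _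
  refine ⟨6, P j, s, 1, fun a b h => ?_, ⟨⟨0, 1, by decide, ?_⟩, ?_⟩, ⟨hs, fun τ hτ => ?_⟩, ?_⟩
  · by_contra hab
    have := (key a b hab).1
    rw [h, dist_self] at this
    linarith
  · exact le_antisymm (key 0 1 (by decide)).1 (dle _ _ _ zero_le_one (by simp [P]))
  · rintro t ⟨a, b, hab, rfl⟩
    exact (key a b hab).1
  · calc _ ≤ ∑ i, (Y j j⁻¹ i + Y j j⁻¹ (τ i)) := sum_le_sum fun i _ => (key _ _ (hτ i).1.symm).2.1
      _ = ∑ i, (Y j j⁻¹ i + Y j j⁻¹ (s i)) := by rw [hY τ hτ, hY s hs]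
      _ ≤ _ := sum_le_sum fun i _ => (key _ _ (hs i).1.symm).2.2 rfl
  · intro c hc
    have strip : ∀ z ∈ ball c (ε * 1), 0 ≤ z 1 ∧ z 1 * j ≤ 5 := by
      intro z hz
      have h := Set.mem_iInter.mp (hc hz)
      have h0 := memB _ _ _ (h 0)
      have h1 := memB _ _ _ (h 1)
      have h2 := memB _ _ _ (h 2)
      simp [P, s] at h0 h1 h2
      have h3 : 0 ≤ z 1 := by
        by_contra h4
        nlinarith [mul_pos_of_neg_of_neg (not_le.mp h4) (show z 1 - (j ^ 2 - 4) < 0 by nlinarith)]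
      refine ⟨h3, ?_⟩
      have h5 : z 1 * (j ^ 2 - 4) ≤ 4 * j := by nlinarith
      by_contra h6
      nlinarith [mul_nonneg h3 (show 0 ≤ j ^ 2 - 20 by nlinarith)]
    have m : ∀ t : ℝ, |t| < ε → c + !₂[0, t] ∈ ball c (ε * 1) := fun t ht => by
      rw [mem_ball, mul_one]
      refine lt_of_le_of_lt (dle _ _ |t| (abs_nonneg t) (by simp)) ht
    have h1 := (strip _ (m (ε / 2) (by rw [abs_of_pos (by linarith)]; linarith))).2
    have h2 := (strip _ (m (-(ε / 2)) (by rw [abs_neg, abs_of_pos (by linarith)]; linarith))).1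
    simp at h1 h2
    nlinarith

end Pool.Agent.Results.MP_70625d_co.Counter
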